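import Mathlib
import Pool.Agent.U398.MV.Stm4

/-!
Project MV4 (helper398), package CRU (helper600), part A: locally bounded functions, moments.
-/

set_option autoImplicit false

namespace Pool.Agent.U600.MV4

open MeasureTheory Filter Topology Set Pool.Agent.U398.MV
open scoped Nat

/-- measurable and locally bounded -/
def LB (h : ℝ → ℝ) : Prop := Measurable h ∧ ∀ a b : ℝ, ∃ K : ℝ, ∀ t ∈ Icc a b, |h t| ≤ K

theorem LB.const (c : ℝ) : LB (fun _ => c) := ⟨measurable_const, fun _ _ => ⟨|c|, fun _ _ => le_rfl⟩⟩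

theorem LB.add {f g : ℝ → ℝ} (hf : LB f) (hg : LB g) : LB (fun t => f t + g t) := by
  refine ⟨hf.1.add hg.1, fun a b => ?_⟩
  obtain ⟨K, hK⟩ := hf.2 a b
  obtain ⟨K', hK'⟩ := hg.2 a b
  exact ⟨K + K', fun t ht => (abs_add_le _ _).trans (add_le_add (hK t ht) (hK' t ht))⟩

theorem LB.neg {f : ℝ → ℝ} (hf : LB f) : LB (fun t => -f t) := by
  refine ⟨hf.1.neg, fun a b => ?_⟩
  obtain ⟨K, hK⟩ := hf.2 a b
  exact ⟨K, fun t ht => by rw [abs_neg]; exact hK t ht⟩

theorem LB.sub {f g : ℝ → ℝ} (hf : LB f) (hg : LB g) : LB (fun t => f t - g t) := by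
  have := hf.add hg.neg
  simpa [sub_eq_add_neg] using this

theorem LB.mul {f g : ℝ → ℝ} (hf : LB f) (hg : LB g) : LB (fun t => f t * g t) := by
  refine ⟨hf.1.mul hg.1, fun a b => ?_⟩
  obtain ⟨K, hK⟩ := hf.2 a b
  obtain ⟨K', hK'⟩ := hg.2 a b
  refine ⟨|K| * |K'|, fun t ht => ?_⟩
  rw [abs_mul]
  exact mul_le_mul ((hK t ht).trans (le_abs_self _)) ((hK' t ht).trans (le_abs_self _))
    (abs_nonneg _) (abs_nonneg _)

theorem LB.pow {f : ℝ → ℝ} (hf : LB f) (n : ℕ) : LB (fun t => f t ^ n) := by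
  induction n with
  | zero => simpa using LB.const 1
  | succ n ih => simpa [pow_succ] using ih.mul hf

theorem LB.shift {f : ℝ → ℝ} (hf : LB f) (x : ℝ) : LB (fun t => f (t + x)) := by
  refine ⟨hf.1.comp (measurable_id.add_const x), fun a b => ?_⟩
  obtain ⟨K, hK⟩ := hf.2 (a + x) (b + x)
  exact ⟨K, fun t ht => hK _ ⟨by linarith [ht.1], by linarith [ht.2]⟩⟩

theorem LB.sum {ι : Type} (s : Finset ι) {f : ι → ℝ → ℝ} (hf : ∀ i ∈ s, LB (f i)) :
    LB (fun t => ∑ i ∈ s, f i t) := by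
  classical
  induction s using Finset.induction_on with
  | empty => simpa using LB.const 0
  | insert i s hi ih =>
    have h1 := (hf i (Finset.mem_insert_self i s)).add
      (ih fun j hj => hf j (Finset.mem_insert_of_mem hj))
    refine (?_ : LB _)
    convert h1 using 2 with t
    rw [Finset.sum_insert hi]

theorem LB.intOn {f : ℝ → ℝ} (hf : LB f) (a b : ℝ) : IntegrableOn f (Icc a b) := by
  obtain ⟨K, hK⟩ := hf.2 a b
  refine IntegrableOn.of_bound (by rw [Real.volume_Icc]; exact ENNReal.ofReal_lt_top)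
    hf.1.aestronglyMeasurable K ?_
  exact (ae_restrict_iff' measurableSet_Icc).2 (Eventually.of_forall fun t ht => by
    rw [Real.norm_eq_abs]; exact hK t ht)

theorem LB.int {f : ℝ → ℝ} (hf : LB f) (a b : ℝ) (hab : a ≤ b) :
    IntervalIntegrable f volume a b := by
  rw [intervalIntegrable_iff_integrableOn_Icc_of_le hab]
  exact hf.intOn a b

theorem LB_N {N : ℝ → ℕ} (hN : Monotone N) : LB (fun t => (N t : ℝ)) := by
  have hm : Monotone (fun t => (N t : ℝ)) := fun s t h => by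
    change (N s : ℝ) ≤ (N t : ℝ)
    exact_mod_cast hN h
  refine ⟨hm.measurable, fun a b => ⟨(N b : ℝ), fun t ht => ?_⟩⟩
  rw [abs_of_nonneg (Nat.cast_nonneg _)]
  exact hm ht.2

theorem LB_Mf : LB Mf := by
  have hc : Continuous Mf := by
    have h1 : Continuous (fun t : ℝ => t / (2 * Real.pi)) := continuous_id.div_const _
    have h2 := Real.continuous_mul_log.comp h1
    exact h2.sub h1
  refine ⟨hc.measurable, fun a b => ?_⟩
  obtain ⟨K, hK⟩ := isCompact_Icc.exists_bound_of_continuousOn (s := Icc a b) hc.continuousOn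
  exact ⟨K, fun t ht => hK t ht⟩

theorem LB_sg {N : ℝ → ℕ} (hN : Monotone N) : LB (sg N) := (LB_N hN).sub LB_Mf

/-- powers of logarithms -/
theorem log_pow (r : ℕ) (j : ℝ) (hj : 0 ≤ j) :
    (1 + Real.log (1 + 2 * Real.pi * j)) ^ r ≤ ((1 + r) ^ r * 8) * (1 + j) := by
  have hpi := Real.pi_pos
  have hpi4 := Real.pi_lt_d2
  have hx : 1 ≤ 1 + 2 * Real.pi * j := by nlinarith [mul_nonneg hpi.le hj]
  have hx0 : 0 ≤ 1 + 2 * Real.pi * j := by linarith
  have hlog : 0 ≤ Real.log (1 + 2 * Real.pi * j) := Real.log_nonneg hx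
  have hx8 : 1 + 2 * Real.pi * j ≤ 8 * (1 + j) := by nlinarith
  rcases Nat.eq_zero_or_pos r with rfl | hr
  · simp; linarith
  have hr' : (0:ℝ) < r := by exact_mod_cast hr
  set x := 1 + 2 * Real.pi * j with hxd
  have h1 : Real.log x ≤ x ^ (1 / (r:ℝ)) / (1 / (r:ℝ)) := Real.log_le_rpow_div hx0 (by positivity)
  have h2 : (1:ℝ) ≤ x ^ (1 / (r:ℝ)) := Real.one_le_rpow hx (by positivity)
  have h3 : 1 + Real.log x ≤ (1 + r) * x ^ (1 / (r:ℝ)) := by
    have : x ^ (1 / (r:ℝ)) / (1 / (r:ℝ)) = r * x ^ (1 / (r:ℝ)) := by field_simp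
    rw [this] at h1
    linarith
  calc (1 + Real.log x) ^ r ≤ ((1 + r) * x ^ (1 / (r:ℝ))) ^ r :=
        pow_le_pow_left₀ (by linarith) h3 r
    _ = (1 + r) ^ r * x := by
        rw [mul_pow]
        congr 1
        rw [← Real.rpow_natCast, ← Real.rpow_mul hx0]
        rw [one_div_mul_cancel hr'.ne', Real.rpow_one]
    _ ≤ (1 + r) ^ r * (8 * (1 + j)) := mul_le_mul_of_nonneg_left hx8 (by positivity)
    _ = ((1 + r) ^ r * 8) * (1 + j) := by ring

theorem ML {N : ℝ → ℕ} (hM : Mom N) (r : ℕ) (B : ℝ) : ∃ C T0 : ℝ, 0 < C ∧ 10 ≤ T0 ∧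
    ∀ T : ℝ, T0 ≤ T → ∀ i k : ℕ, (i:ℝ) ≤ B * Real.log T → (k:ℝ) ≤ B * Real.log T →
    (∫ t in (3 * T / 4)..(3 * T), (sg N (t + 2 * Real.pi * i / Real.log T) -
      sg N (t + 2 * Real.pi * k / Real.log T)) ^ (2 * r)) ≤ C * T * (1 + |(i:ℝ) - k|) := by
  obtain ⟨C, T0, hC, hT0, h⟩ := hM.1 r (2 * Real.pi * B)
  have hpi := Real.pi_pos
  refine ⟨C * ((1 + r) ^ r * 8), T0, by positivity, hT0, fun T hT i k hi hk => ?_⟩
  have hL : 0 < Real.log T := Real.log_pos (by linarith)
  have hb : ∀ i : ℕ, (i:ℝ) ≤ B * Real.log T → |2 * Real.pi * i / Real.log T| ≤ 2 * Real.pi * B := by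
    intro i hi
    rw [abs_of_nonneg (by positivity), div_le_iff₀ hL]
    nlinarith
  refine (h T hT _ _ (hb i hi) (hb k hk)).trans ?_
  have e : |2 * Real.pi * i / Real.log T - 2 * Real.pi * k / Real.log T| * Real.log T =
      2 * Real.pi * |(i:ℝ) - k| := by
    rw [← sub_div, ← mul_sub, abs_div, abs_mul, abs_of_pos hL, abs_of_pos (by positivity : 0 < 2 * Real.pi)]
    field_simp
  rw [e]
  have := log_pow r |(i:ℝ) - k| (abs_nonneg _)
  have hT' : 0 < T := by linarith
  calc C * T * (1 + Real.log (1 + 2 * Real.pi * |(i:ℝ) - k|)) ^ r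
      ≤ C * T * (((1 + r) ^ r * 8) * (1 + |(i:ℝ) - k|)) :=
        mul_le_mul_of_nonneg_left this (by positivity)
    _ = _ := by ring

theorem MD {N : ℝ → ℕ} (hM : Mom N) (B : ℝ) : ∃ C T0 : ℝ, 0 < C ∧ 10 ≤ T0 ∧
    ∀ T : ℝ, T0 ≤ T → ∀ R a : ℕ, 1 ≤ R → a ≤ R → (R:ℝ) ≤ B * Real.log T →
    (∫ t in (3 * T / 4)..(3 * T), (sg N (t + 2 * Real.pi * a / Real.log T) - sg N t) ^ 12) ≤
      C * T * (1 + Real.log R) ^ 6 := by
  obtain ⟨C, T0, hC, hT0, h⟩ := hM.1 6 (2 * Real.pi * |B|)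
  have hpi := Real.pi_pos
  have hpi4 := Real.pi_lt_d2
  refine ⟨C * 4 ^ 6, T0, by positivity, hT0, fun T hT R a hR haR hRB => ?_⟩
  have hL : 0 < Real.log T := Real.log_pos (by linarith)
  have hT' : 0 < T := by linarith
  have haR' : (a:ℝ) ≤ R := by exact_mod_cast haR
  have hR' : (1:ℝ) ≤ R := by exact_mod_cast hR
  have hb : |2 * Real.pi * a / Real.log T| ≤ 2 * Real.pi * |B| := by
    rw [abs_of_nonneg (by positivity), div_le_iff₀ hL]
    have : (a:ℝ) ≤ |B| * Real.log T :=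
      (haR'.trans hRB).trans (mul_le_mul_of_nonneg_right (le_abs_self _) hL.le)
    nlinarith
  have h1 := h T hT (2 * Real.pi * a / Real.log T) 0 hb (by rw [abs_zero]; positivity)
  simp only [add_zero, sub_zero] at h1
  refine h1.trans ?_
  have e : |2 * Real.pi * a / Real.log T| * Real.log T = 2 * Real.pi * a := by
    rw [abs_of_nonneg (by positivity)]; field_simp
  rw [e]
  have h2 : 1 + Real.log (1 + 2 * Real.pi * a) ≤ 4 * (1 + Real.log R) := by
    have h3 : 1 + 2 * Real.pi * a ≤ 8 * R := by nlinarith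
    have h4 : Real.log (1 + 2 * Real.pi * a) ≤ Real.log (8 * R) :=
      Real.log_le_log (by positivity) h3
    rw [Real.log_mul (by norm_num) (by positivity)] at h4
    have h5 : Real.log 8 ≤ 3 := by
      have : Real.log 8 = 3 * Real.log 2 := by
        rw [show (8:ℝ) = 2 ^ 3 by norm_num, Real.log_pow]; norm_num
      have := Real.log_two_lt_d9
      linarith
    have h6 := Real.log_nonneg hR'
    linarith
  have h7 : 0 ≤ 1 + Real.log (1 + 2 * Real.pi * a) := by
    have := Real.log_nonneg (by nlinarith [mul_nonneg hpi.le (Nat.cast_nonneg (α := ℝ) a)] : (1:ℝ) ≤ 1 + 2 * Real.pi * a)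
    linarith
  calc C * T * (1 + Real.log (1 + 2 * Real.pi * a)) ^ 6
      ≤ C * T * (4 * (1 + Real.log R)) ^ 6 :=
        mul_le_mul_of_nonneg_left (pow_le_pow_left₀ h7 h2 6) (by positivity)
    _ = _ := by ring

/-- the increment of `Mf` -/
theorem Mf_inc (T t : ℝ) (hT : 1000 ≤ Real.log T) (h1 : 3 * T / 4 ≤ t) (h2 : t ≤ 3 * T) :
    |Mf (t + 2 * Real.pi / Real.log T) - Mf t| ≤ 1 := by
  have hpi := Real.pi_pos
  have hpi3 := Real.pi_gt_three
  have hpi4 := Real.pi_lt_d2
  set L := Real.log T with hL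
  have hL0 : 0 < L := by linarith
  set w := 2 * Real.pi / L with hw
  have hw0 : 0 < w := by positivity
  have hw1 : w ≤ 1 := by rw [hw, div_le_one hL0]; linarith
  have hT1 : 1000 ≤ T := by
    have := Real.log_le_sub_one_of_pos (x := T) (by
      by_contra hc
      push Not at hc
      rcases hc.lt_or_eq with hc | hc
      · -- T negative: log T = log (-T)
        have : t < 0 ∨ 0 ≤ t := lt_or_ge _ _
        nlinarith
      · rw [hc, Real.log_zero] at hL; linarith)
    linarith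
  have ht0 : 0 < t := by linarith
  have htw : 0 < t + w := by linarith
  have e : Mf (t + w) - Mf t = (1 / (2 * Real.pi)) *
      (w * Real.log ((t + w) / (2 * Real.pi)) + t * Real.log ((t + w) / t) - w) := by
    unfold Mf
    rw [Real.log_div htw.ne' (by positivity), Real.log_div ht0.ne' (by positivity),
      Real.log_div htw.ne' ht0.ne']
    field_simp
    ring
  have hl1 : 0 ≤ Real.log ((t + w) / t) := Real.log_nonneg (by rw [le_div_iff₀ ht0]; linarith)
  have hl2 : t * Real.log ((t + w) / t) ≤ w := by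
    have : Real.log ((t + w) / t) ≤ (t + w) / t - 1 := Real.log_le_sub_one_of_pos (by positivity)
    have h3 : t * ((t + w) / t - 1) = w := by field_simp; ring
    nlinarith [mul_le_mul_of_nonneg_left this ht0.le]
  have hl3 : 0 ≤ Real.log ((t + w) / (2 * Real.pi)) :=
    Real.log_nonneg (by rw [le_div_iff₀ (by positivity)]; linarith)
  have hl4 : Real.log ((t + w) / (2 * Real.pi)) ≤ L := by
    apply Real.log_le_log (by positivity)
    rw [div_le_iff₀ (by positivity)]
    nlinarith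
  have hwL : w * L = 2 * Real.pi := by rw [hw]; field_simp
  rw [e, abs_le]
  have hu : w * Real.log ((t + w) / (2 * Real.pi)) ≤ 2 * Real.pi :=
    (mul_le_mul_of_nonneg_left hl4 hw0.le).trans hwL.le
  have hu0 : 0 ≤ w * Real.log ((t + w) / (2 * Real.pi)) := mul_nonneg hw0.le hl3
  have hv0 : 0 ≤ t * Real.log ((t + w) / t) := mul_nonneg ht0.le hl1
  have hk : 0 < 1 / (2 * Real.pi) := by positivity
  have hk2 : (1 / (2 * Real.pi)) * (2 * Real.pi) = 1 := by field_simp
  constructor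
  · nlinarith
  · nlinarith

/-- for a sum of two terms -/
theorem pow_two_terms (x y : ℝ) (r : ℕ) : (x + y) ^ (2 * r) ≤ 4 ^ r * (x ^ (2 * r) + y ^ (2 * r)) := by
  have h1 : (x + y) ^ 2 ≤ 4 * max (x ^ 2) (y ^ 2) := by
    have := le_max_left (x^2) (y^2)
    have := le_max_right (x^2) (y^2)
    nlinarith [sq_nonneg (x - y)]
  have h0 : 0 ≤ max (x^2) (y^2) := le_max_of_le_left (sq_nonneg x)
  calc (x + y) ^ (2 * r) = ((x + y) ^ 2) ^ r := by rw [pow_mul]
    _ ≤ (4 * max (x ^ 2) (y ^ 2)) ^ r := pow_le_pow_left₀ (sq_nonneg _) h1 r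
    _ = 4 ^ r * (max (x ^ 2) (y ^ 2)) ^ r := by rw [mul_pow]
    _ ≤ 4 ^ r * (x ^ (2 * r) + y ^ (2 * r)) := by
        apply mul_le_mul_of_nonneg_left _ (by positivity)
        have hx : 0 ≤ x ^ (2 * r) := by rw [pow_mul]; positivity
        have hy : 0 ≤ y ^ (2 * r) := by rw [pow_mul]; positivity
        rcases le_total (x^2) (y^2) with h | h
        · rw [max_eq_right h, ← pow_mul]; linarith
        · rw [max_eq_left h, ← pow_mul]; linarith

theorem MN {N : ℝ → ℕ} (hN : Monotone N) (hM : Mom N) (r : ℕ) : ∃ C T0 : ℝ, 0 < C ∧ 10 ≤ T0 ∧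
    ∀ T : ℝ, T0 ≤ T →
    (∫ t in (3 * T / 4)..(3 * T), ((N (t + 2 * Real.pi / Real.log T) : ℝ) - N t) ^ (2 * r)) ≤
      C * T := by
  obtain ⟨C, T0, hC, hT0, h⟩ := ML hM r 1
  refine ⟨4 ^ r * (3 + 2 * C), max T0 (Real.exp 1000), by positivity, hT0.trans (le_max_left _ _),
    fun T hT => ?_⟩
  have hTT0 : T0 ≤ T := (le_max_left _ _).trans hT
  have hT' : 0 < T := by linarith
  have hL : 1000 ≤ Real.log T := by
    rw [Real.le_log_iff_exp_le hT']; exact (le_max_right _ _).trans hT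
  have hab : 3 * T / 4 ≤ 3 * T := by linarith
  have h1 := h T hTT0 1 0 (by push_cast; linarith) (by push_cast; linarith)
  simp only [Nat.cast_one, mul_one, Nat.cast_zero, mul_zero, zero_div, add_zero, sub_zero, abs_one] at h1
  have hlb : LB (fun t => sg N (t + 2 * Real.pi / Real.log T) - sg N t) :=
    ((LB_sg hN).shift _).sub (LB_sg hN)
  have hlbN : LB (fun t => ((N (t + 2 * Real.pi / Real.log T) : ℝ) - N t)) :=
    ((LB_N hN).shift _).sub (LB_N hN)
  calc (∫ t in (3 * T / 4)..(3 * T), ((N (t + 2 * Real.pi / Real.log T) : ℝ) - N t) ^ (2 * r))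
      ≤ ∫ t in (3 * T / 4)..(3 * T), 4 ^ r * (1 +
        (sg N (t + 2 * Real.pi / Real.log T) - sg N t) ^ (2 * r)) := by
        refine intervalIntegral.integral_mono_on hab ((hlbN.pow _).int _ _ hab)
          (((LB.const _).mul ((LB.const 1).add (hlb.pow _))).int _ _ hab) fun t ht => ?_
        have hm := Mf_inc T t hL ht.1 ht.2
        have e : ((N (t + 2 * Real.pi / Real.log T) : ℝ) - N t) =
            (Mf (t + 2 * Real.pi / Real.log T) - Mf t) +
            (sg N (t + 2 * Real.pi / Real.log T) - sg N t) := by unfold sg; ring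
        rw [e]
        refine (pow_two_terms _ _ r).trans (mul_le_mul_of_nonneg_left ?_ (by positivity))
        have : (Mf (t + 2 * Real.pi / Real.log T) - Mf t) ^ (2 * r) ≤ 1 := by
          rw [← (even_two_mul r).pow_abs]
          exact pow_le_one₀ (abs_nonneg _) hm
        linarith
    _ = 4 ^ r * ((3 * T - 3 * T / 4) + ∫ t in (3 * T / 4)..(3 * T),
        (sg N (t + 2 * Real.pi / Real.log T) - sg N t) ^ (2 * r)) := by
        rw [intervalIntegral.integral_const_mul, intervalIntegral.integral_add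
          ((LB.const 1).int _ _ hab) ((hlb.pow _).int _ _ hab)]
        simp
    _ ≤ 4 ^ r * (3 + 2 * C) * T := by
        rw [mul_assoc]
        apply mul_le_mul_of_nonneg_left _ (by positivity)
        linarith

end Pool.Agent.U600.MV4
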