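import Mathlib
import Pool.Agent.U600.MV4.A

/-!
Project MV4 (helper398), package CRU (helper600), part B: the dominating function.
-/

set_option autoImplicit false

namespace Pool.Agent.U600.MV4

open MeasureTheory Filter Topology Set Pool.Agent.U398.MV
open scoped Nat

theorem sq8 (a b c d e f g h : ℝ) : (a + b + c + d + e + f + g + h) ^ 2 ≤
    8 * (a ^ 2 + b ^ 2 + c ^ 2 + d ^ 2 + e ^ 2 + f ^ 2 + g ^ 2 + h ^ 2) := by
  have := sq_sum_le_card_mul_sum_sq (s := (Finset.univ : Finset (Fin 8)))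
    (f := ![a, b, c, d, e, f, g, h])
  simpa [Fin.sum_univ_eight] using this

theorem sum_pow_le {ι : Type} (s : Finset ι) (hs : s.Nonempty) (x : ι → ℝ)
    (hx : ∀ i ∈ s, 0 ≤ x i) (n : ℕ) : (∑ i ∈ s, x i) ^ n ≤ (s.card : ℝ) ^ n * ∑ i ∈ s, x i ^ n := by
  obtain ⟨m, hm, hmax⟩ := Finset.exists_max_image s x hs
  have h1 : ∑ i ∈ s, x i ≤ s.card * x m := by
    have := Finset.sum_le_card_nsmul s x (x m) hmax
    simpa using this
  calc (∑ i ∈ s, x i) ^ n ≤ (s.card * x m) ^ n :=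
        pow_le_pow_left₀ (Finset.sum_nonneg hx) h1 n
    _ = (s.card : ℝ) ^ n * x m ^ n := mul_pow _ _ _
    _ ≤ _ := by
        apply mul_le_mul_of_nonneg_left _ (by positivity)
        exact Finset.single_le_sum (f := fun i => x i ^ n) (fun i hi => pow_nonneg (hx i hi) n) hm

theorem pow5 (a b c d e : ℝ) (ha : 0 ≤ a) (hb : 0 ≤ b) (hc : 0 ≤ c) (hd : 0 ≤ d) (he : 0 ≤ e)
    (n : ℕ) : (a + b + c + d + e) ^ n ≤ 5 ^ n * (a ^ n + b ^ n + c ^ n + d ^ n + e ^ n) := by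
  have := sum_pow_le (Finset.univ : Finset (Fin 5)) Finset.univ_nonempty ![a, b, c, d, e] (by
    intro i _; fin_cases i <;> simpa) n
  simpa [Fin.sum_univ_five] using this

theorem pow4 (a b c d : ℝ) (ha : 0 ≤ a) (hb : 0 ≤ b) (hc : 0 ≤ c) (hd : 0 ≤ d)
    (n : ℕ) : (a + b + c + d) ^ n ≤ 4 ^ n * (a ^ n + b ^ n + c ^ n + d ^ n) := by
  have := sum_pow_le (Finset.univ : Finset (Fin 4)) Finset.univ_nonempty ![a, b, c, d] (by
    intro i _; fin_cases i <;> simpa) n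
  simpa [Fin.sum_univ_four] using this

/-- the bracket -/
noncomputable def br (q : ℕ) (ν D d d' : ℝ) : ℝ :=
  2 + ν ^ 6 + D ^ 6 + d ^ 6 + d' ^ 6 + ν ^ (4 * q) + d ^ (4 * q) + d' ^ (4 * q)

theorem even4 (q : ℕ) : Even (4 * q) := ⟨2 * q, by ring⟩

theorem br_nonneg (q : ℕ) (ν D d d' : ℝ) : 0 ≤ br q ν D d d' := by
  unfold br
  have h1 : ∀ x : ℝ, 0 ≤ x ^ (4 * q) := fun x => (even4 q).pow_nonneg x
  have h2 : ∀ x : ℝ, 0 ≤ x ^ 6 := fun x => (show Even 6 by decide).pow_nonneg x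
  have := h1 ν; have := h1 d; have := h1 d'; have := h2 ν; have := h2 D; have := h2 d; have := h2 d'
  linarith

/-- the pointwise bound -/
theorem ptw (C : ℝ) (hC : 1 ≤ C) (q : ℕ) (X j ν D d d' : ℝ) (hν : 0 ≤ ν) (hj : 0 ≤ j)
    (h1 : |X| ≤ C * (1 + ν) + |d| + |d'|) (h2 : j ≤ C * (1 + ν + |D| + |d| + |d'|)) :
    X ^ (2 * q) ≤ ((2 * C) ^ 6 * 5 ^ 6 + C ^ (4 * q) * 4 ^ (4 * q)) * ((1 + j) ^ 3)⁻¹ *
      br q ν D d d' := by
  have hd := abs_nonneg d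
  have hd' := abs_nonneg d'
  have hD := abs_nonneg D
  obtain ⟨u, hu⟩ : ∃ u, u = 1 + ν + |D| + |d| + |d'| := ⟨_, rfl⟩
  obtain ⟨H, hH⟩ : ∃ H, H = 1 + ν + |d| + |d'| := ⟨_, rfl⟩
  have hu1 : 1 ≤ u := by linarith
  have hH1 : 1 ≤ H := by linarith
  have hX : |X| ≤ C * H := by rw [hH]; nlinarith
  have hj1 : 1 + j ≤ 2 * C * u := by rw [← hu] at h2; nlinarith
  have e1 : X ^ (2 * q) ≤ (C * H) ^ (2 * q) := by
    rw [← (even_two_mul q).pow_abs]; exact pow_le_pow_left₀ (abs_nonneg _) hX _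
  have e2 : (1 + j) ^ 3 ≤ (2 * C * u) ^ 3 := pow_le_pow_left₀ (by linarith) hj1 _
  have hX0 : 0 ≤ X ^ (2 * q) := (even_two_mul q).pow_nonneg X
  have e3 : (1 + j) ^ 3 * X ^ (2 * q) ≤ (2 * C * u) ^ 3 * (C * H) ^ (2 * q) :=
    mul_le_mul e2 e1 hX0 (by positivity)
  have e4 : (2 * C * u) ^ 3 * (C * H) ^ (2 * q) ≤ (2 * C) ^ 6 * u ^ 6 + C ^ (4 * q) * H ^ (4 * q) := by
    have : ∀ x y : ℝ, x * y ≤ x ^ 2 + y ^ 2 := fun x y => by nlinarith [sq_nonneg (x - y), sq_nonneg (x + y)]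
    refine (this _ _).trans (le_of_eq ?_)
    rw [← pow_mul, ← pow_mul, mul_pow (2 * C) u, mul_pow C H]
    congr 2 <;> ring_nf
  have a6 : ∀ x : ℝ, |x| ^ 6 = x ^ 6 := fun x => (show Even 6 by decide).pow_abs x
  have a4 : ∀ x : ℝ, |x| ^ (4 * q) = x ^ (4 * q) := fun x => (even4 q).pow_abs x
  have e5 : u ^ 6 ≤ 5 ^ 6 * (1 + ν ^ 6 + D ^ 6 + d ^ 6 + d' ^ 6) := by
    have := pow5 1 ν |D| |d| |d'| zero_le_one hν hD hd hd' 6
    rw [← hu, a6, a6, a6, one_pow] at this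
    exact this
  have e6 : H ^ (4 * q) ≤ 4 ^ (4 * q) * (1 + ν ^ (4 * q) + d ^ (4 * q) + d' ^ (4 * q)) := by
    have := pow4 1 ν |d| |d'| zero_le_one hν hd hd' (4 * q)
    rw [← hH, a4, a4, one_pow] at this
    exact this
  have b1 : ∀ x : ℝ, 0 ≤ x ^ (4 * q) := fun x => (even4 q).pow_nonneg x
  have b2 : ∀ x : ℝ, 0 ≤ x ^ 6 := fun x => (show Even 6 by decide).pow_nonneg x
  have e7 : (2 * C) ^ 6 * u ^ 6 ≤ (2 * C) ^ 6 * 5 ^ 6 * br q ν D d d' := by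
    rw [mul_assoc]
    apply mul_le_mul_of_nonneg_left _ (by positivity)
    refine e5.trans (mul_le_mul_of_nonneg_left ?_ (by positivity))
    unfold br
    have := b1 ν; have := b1 d; have := b1 d'
    linarith
  have e8 : C ^ (4 * q) * H ^ (4 * q) ≤ C ^ (4 * q) * 4 ^ (4 * q) * br q ν D d d' := by
    rw [mul_assoc]
    apply mul_le_mul_of_nonneg_left _ (by positivity)
    refine e6.trans (mul_le_mul_of_nonneg_left ?_ (by positivity))
    unfold br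
    have := b2 ν; have := b2 D; have := b2 d; have := b2 d'
    linarith
  have hj3 : 0 < (1 + j) ^ 3 := by positivity
  have e9 : (1 + j) ^ 3 * X ^ (2 * q) ≤
      ((2 * C) ^ 6 * 5 ^ 6 + C ^ (4 * q) * 4 ^ (4 * q)) * br q ν D d d' := by
    rw [add_mul]; linarith
  calc X ^ (2 * q) = ((1 + j) ^ 3)⁻¹ * ((1 + j) ^ 3 * X ^ (2 * q)) := by
        field_simp
    _ ≤ ((1 + j) ^ 3)⁻¹ * (((2 * C) ^ 6 * 5 ^ 6 + C ^ (4 * q) * 4 ^ (4 * q)) * br q ν D d d') :=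
        mul_le_mul_of_nonneg_left e9 (by positivity)
    _ = _ := by ring

/-! ### sums over `i` -/

theorem sum_abs (f : ℕ → ℝ) (hf : ∀ j, 0 ≤ f j) (n k : ℕ) (hk : k < n) :
    ∑ l ∈ Finset.range n, f ((k:ℤ) - l).natAbs ≤ 2 * ∑ j ∈ Finset.range n, f j := by
  obtain ⟨m, rfl⟩ : ∃ m, n = (k + 1) + m := ⟨n - (k+1), by omega⟩
  rw [Finset.sum_range_add]
  have h1 : ∑ l ∈ Finset.range (k+1), f ((k:ℤ) - l).natAbs = ∑ j ∈ Finset.range (k+1), f j := by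
    rw [← Finset.sum_range_reflect f (k+1)]
    apply Finset.sum_congr rfl
    intro l hl
    have := Finset.mem_range.1 hl
    congr 1
    omega
  have h2 : ∑ l ∈ Finset.range m, f ((k:ℤ) - ((k + 1 + l : ℕ) : ℤ)).natAbs =
      ∑ j ∈ Finset.range m, f (j+1) := by
    apply Finset.sum_congr rfl
    intro l hl
    congr 1
    push_cast
    omega
  rw [h1, h2]
  have h3 : ∑ j ∈ Finset.range (k+1), f j ≤ ∑ j ∈ Finset.range (k + 1 + m), f j := by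
    apply Finset.sum_le_sum_of_subset_of_nonneg
    · intro x hx; simp only [Finset.mem_range] at *; omega
    · intro i _ _; exact hf i
  have h4 : ∑ j ∈ Finset.range m, f (j+1) ≤ ∑ j ∈ Finset.range (k + 1 + m), f j := by
    have : ∑ j ∈ Finset.range (m+1), f j = ∑ j ∈ Finset.range m, f (j+1) + f 0 :=
      Finset.sum_range_succ' f m
    have h5 : ∑ j ∈ Finset.range (m+1), f j ≤ ∑ j ∈ Finset.range (k + 1 + m), f j := by
      apply Finset.sum_le_sum_of_subset_of_nonneg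
      · intro x hx; simp only [Finset.mem_range] at *; omega
      · intro i _ _; exact hf i
    have := hf 0
    linarith
  linarith

theorem sum_sq_inv (n : ℕ) : ∑ j ∈ Finset.range n, (((1:ℝ) + j) ^ 2)⁻¹ ≤ 2 := by
  have : ∑ j ∈ Finset.range n, (((1:ℝ) + j) ^ 2)⁻¹ ≤ 2 - 2 / (n + 1) := by
    induction n with
    | zero => norm_num
    | succ n ih =>
      rw [Finset.sum_range_succ]
      have h : (((1:ℝ) + n) ^ 2)⁻¹ ≤ 2 / (n + 1) - 2 / ((n + 1 : ℕ) + 1) := by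
        push_cast
        have hn : (0:ℝ) ≤ n := Nat.cast_nonneg n
        rw [div_sub_div _ _ (by positivity) (by positivity), ← one_div,
          div_le_div_iff₀ (by positivity) (by positivity)]
        nlinarith
      linarith
  have h2 : (0:ℝ) ≤ 2 / (n + 1) := by positivity
  linarith

theorem sum_i (M a : ℕ) : ∑ i ∈ Finset.range M, ((1 + |(i:ℝ) - a|) ^ 2)⁻¹ ≤ 4 := by
  have h1 : ∑ i ∈ Finset.range M, ((1 + |(i:ℝ) - a|) ^ 2)⁻¹ ≤
      ∑ i ∈ Finset.range (M + a + 1), ((1 + |(i:ℝ) - a|) ^ 2)⁻¹ := by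
    apply Finset.sum_le_sum_of_subset_of_nonneg
    · intro x hx; simp only [Finset.mem_range] at *; omega
    · intro i _ _; positivity
  have h2 : ∀ i : ℕ, ((1 + |(i:ℝ) - a|) ^ 2)⁻¹ =
      (fun j : ℕ => (((1:ℝ) + j) ^ 2)⁻¹) ((a:ℤ) - i).natAbs := by
    intro i
    have : |(i:ℝ) - a| = (((a:ℤ) - i).natAbs : ℝ) := by
      rw [abs_sub_comm, Nat.cast_natAbs, Int.cast_abs]
      push_cast
      rfl
    simp only [this]
  have h3 := sum_abs (fun j : ℕ => (((1:ℝ) + j) ^ 2)⁻¹) (fun j => by positivity) (M + a + 1) a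
    (by omega)
  have h4 := sum_sq_inv (M + a + 1)
  have h5 : ∑ i ∈ Finset.range (M + a + 1), ((1 + |(i:ℝ) - a|) ^ 2)⁻¹ =
      ∑ l ∈ Finset.range (M + a + 1), (((1:ℝ) + (((a:ℤ) - l).natAbs : ℝ)) ^ 2)⁻¹ :=
    Finset.sum_congr rfl fun i _ => h2 i
  have h6 : ∑ l ∈ Finset.range (M + a + 1), (((1:ℝ) + (((a:ℤ) - l).natAbs : ℝ)) ^ 2)⁻¹ ≤
      2 * ∑ j ∈ Finset.range (M + a + 1), (((1:ℝ) + j) ^ 2)⁻¹ := h3
  linarith

theorem sum_i3 (M a : ℕ) : ∑ i ∈ Finset.range M, ((1 + |(i:ℝ) - a|) ^ 4)⁻¹ * (1 + |(i:ℝ) - a|) ≤ 4 := by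
  refine le_trans (Finset.sum_le_sum fun i _ => ?_) (sum_i M a)
  have h : (1:ℝ) ≤ 1 + |(i:ℝ) - a| := by linarith [abs_nonneg ((i:ℝ) - a)]
  set x := 1 + |(i:ℝ) - a|
  have hx : 0 < x := by linarith
  rw [inv_mul_le_iff₀ (by positivity)]
  have : x ^ 4 * (x ^ 2)⁻¹ = x ^ 2 := by field_simp
  rw [this]
  nlinarith

/-! ### The dominating function -/

/-- number of zeros in a short window -/
noncomputable def nuf (N : ℝ → ℕ) (L t : ℝ) : ℝ := (N (t + 2 * Real.pi / L) : ℝ) - N t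

/-- difference of the fluctuations -/
noncomputable def Dl (N : ℝ → ℕ) (L : ℝ) (i k : ℕ) (t : ℝ) : ℝ :=
  sg N (t + 2 * Real.pi * i / L) - sg N (t + 2 * Real.pi * k / L)

/-- difference of the fluctuations -/
noncomputable def D0 (N : ℝ → ℕ) (L : ℝ) (a : ℕ) (t : ℝ) : ℝ :=
  sg N (t + 2 * Real.pi * a / L) - sg N t

/-- the bracket as a function of `t` -/
noncomputable def Br (N : ℝ → ℕ) (L : ℝ) (q a i : ℕ) (t : ℝ) : ℝ :=
  br q (nuf N L t) (D0 N L a t) (Dl N L i a t) (Dl N L (i + 1) a t)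

/-- the dominating function -/
noncomputable def dom (N : ℝ → ℕ) (L K : ℝ) (M q a : ℕ) (t : ℝ) : ℝ :=
  ∑ i ∈ Finset.range M, K * ((1 + |(i:ℝ) - a|) ^ 3)⁻¹ * Br N L q a i t

variable {N : ℝ → ℕ}

theorem LB_nuf (hN : Monotone N) (L : ℝ) : LB (nuf N L) := ((LB_N hN).shift _).sub (LB_N hN)

theorem LB_Dl (hN : Monotone N) (L : ℝ) (i k : ℕ) : LB (Dl N L i k) :=
  ((LB_sg hN).shift _).sub ((LB_sg hN).shift _)

theorem LB_D0 (hN : Monotone N) (L : ℝ) (a : ℕ) : LB (D0 N L a) :=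
  ((LB_sg hN).shift _).sub (LB_sg hN)

theorem LB_Br (hN : Monotone N) (L : ℝ) (q a i : ℕ) : LB (Br N L q a i) := by
  unfold Br br
  exact (((((((LB.const 2).add ((LB_nuf hN L).pow 6)).add ((LB_D0 hN L a).pow 6)).add
    ((LB_Dl hN L i a).pow 6)).add ((LB_Dl hN L (i+1) a).pow 6)).add
    ((LB_nuf hN L).pow (4*q))).add ((LB_Dl hN L i a).pow (4*q))).add
    ((LB_Dl hN L (i+1) a).pow (4*q))

theorem LB_dom (hN : Monotone N) (L K : ℝ) (M q a : ℕ) : LB (dom N L K M q a) := by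
  unfold dom
  exact LB.sum _ fun i _ => (LB.const _).mul (LB_Br hN L q a i)

theorem Br_nonneg (L : ℝ) (q a i : ℕ) (t : ℝ) : 0 ≤ Br N L q a i t := br_nonneg _ _ _ _ _

theorem dom_nonneg (L K : ℝ) (hK : 0 ≤ K) (M q a : ℕ) (t : ℝ) : 0 ≤ dom N L K M q a t :=
  Finset.sum_nonneg fun i _ => mul_nonneg (mul_nonneg hK (by positivity)) (Br_nonneg _ _ _ _ _)

theorem dom_sq (L K : ℝ) (hK : 0 ≤ K) (M q a : ℕ) (t : ℝ) : dom N L K M q a t ^ 2 ≤
    4 * ∑ i ∈ Finset.range M, K ^ 2 * ((1 + |(i:ℝ) - a|) ^ 4)⁻¹ * Br N L q a i t ^ 2 := by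
  unfold dom
  refine (Finset.sum_sq_le_sum_mul_sum_of_sq_eq_mul (Finset.range M)
    (f := fun i : ℕ => ((1 + |(i:ℝ) - a|) ^ 2)⁻¹)
    (g := fun i : ℕ => K ^ 2 * ((1 + |(i:ℝ) - a|) ^ 4)⁻¹ * Br N L q a i t ^ 2)
    (fun i _ => by positivity) (fun i _ => by positivity) (fun i _ => ?_)).trans ?_
  · have : (0:ℝ) < 1 + |(i:ℝ) - a| := by positivity
    field_simp
  · exact mul_le_mul_of_nonneg_right (sum_i M a) (Finset.sum_nonneg fun i _ => by positivity)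

end Pool.Agent.U600.MV4
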