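import Mathlib
import Pool.Agent.U600.MV4.B

/-!
Project MV4 (helper398), package CRU (helper600): the comparison of the ordinates with the
fluctuations, in all moments.
-/

set_option autoImplicit false

namespace Pool.Agent.U600.MV4

open MeasureTheory Filter Topology Set Pool.Agent.U398.MV
open scoped Nat

/-- a locally bounded function with a bound of the integral over `[3T/4, 3T]` -/
def IB (T F : ℝ) (f : ℝ → ℝ) : Prop := LB f ∧ (∫ t in (3 * T / 4)..(3 * T), f t) ≤ F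

theorem IB.add {T F G : ℝ} (hT : 0 ≤ T) {f g : ℝ → ℝ} (hf : IB T F f) (hg : IB T G g) :
    IB T (F + G) (fun t => f t + g t) := by
  have hab : 3 * T / 4 ≤ 3 * T := by linarith
  refine ⟨hf.1.add hg.1, ?_⟩
  rw [intervalIntegral.integral_add (hf.1.int _ _ hab) (hg.1.int _ _ hab)]
  exact add_le_add hf.2 hg.2

theorem IB.const {T : ℝ} (c : ℝ) : IB T (c * (9 * T / 4)) (fun _ => c) := by
  refine ⟨LB.const c, le_of_eq ?_⟩
  rw [intervalIntegral.integral_const, smul_eq_mul]; ring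

theorem IB.cmul {T F c : ℝ} (hc : 0 ≤ c) {f : ℝ → ℝ} (hf : IB T F f) :
    IB T (c * F) (fun t => c * f t) := by
  refine ⟨(LB.const c).mul hf.1, ?_⟩
  rw [intervalIntegral.integral_const_mul]
  exact mul_le_mul_of_nonneg_left hf.2 hc

theorem IB.mono {T F : ℝ} (hT : 0 ≤ T) {f g : ℝ → ℝ} (hf : LB f) (h : ∀ t, f t ≤ g t)
    (hg : IB T F g) : IB T F f := by
  have hab : 3 * T / 4 ≤ 3 * T := by linarith
  exact ⟨hf, (intervalIntegral.integral_mono_on hab (hf.int _ _ hab) (hg.1.int _ _ hab)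
    fun t _ => h t).trans hg.2⟩

theorem IB.sum {ι : Type} {T : ℝ} (hT : 0 ≤ T) (s : Finset ι) {F : ι → ℝ} {f : ι → ℝ → ℝ}
    (hf : ∀ i ∈ s, IB T (F i) (f i)) : IB T (∑ i ∈ s, F i) (fun t => ∑ i ∈ s, f i t) := by
  have hab : 3 * T / 4 ≤ 3 * T := by linarith
  refine ⟨LB.sum s fun i hi => (hf i hi).1, ?_⟩
  rw [intervalIntegral.integral_finset_sum fun i hi => (hf i hi).1.int _ _ hab]
  exact Finset.sum_le_sum fun i hi => (hf i hi).2

variable {N : ℝ → ℕ}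

theorem BrInt (hN : Monotone N) (hM : Mom N) (q : ℕ) (B : ℝ) : ∃ C T0 : ℝ, 0 < C ∧ 10 ≤ T0 ∧
    ∀ T : ℝ, T0 ≤ T → ∀ R a i : ℕ, 1 ≤ R → a ≤ R → (R:ℝ) ≤ B * Real.log T →
    ((i + 1 : ℕ) : ℝ) ≤ B * Real.log T →
    IB T (C * T * (1 + Real.log R) ^ 6 * (1 + |(i:ℝ) - a|)) (fun t => Br N (Real.log T) q a i t ^ 2)
      := by
  obtain ⟨C1, T1, hC1, hT1, h1⟩ := MN hN hM 6
  obtain ⟨C2, T2, hC2, hT2, h2⟩ := MN hN hM (4 * q)
  obtain ⟨C3, T3, hC3, hT3, h3⟩ := ML hM 6 B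
  obtain ⟨C4, T4, hC4, hT4, h4⟩ := ML hM (4 * q) B
  obtain ⟨C5, T5, hC5, hT5, h5⟩ := MD hM B
  refine ⟨8 * (9 + C1 + C5 + C3 + 2 * C3 + C2 + C4 + 2 * C4), T1 + T2 + T3 + T4 + T5,
    by positivity, by linarith, fun T hT R a i hR haR hRB hiB => ?_⟩
  have hT0 : 0 < T := by linarith
  have hR' : (1:ℝ) ≤ R := by exact_mod_cast hR
  have haR' : (a:ℝ) ≤ R := by exact_mod_cast haR
  have ha : (a:ℝ) ≤ B * Real.log T := haR'.trans hRB
  have hi : (i:ℝ) ≤ B * Real.log T := by push_cast at hiB; linarith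
  set L := Real.log T with hL
  have bν : IB T (C1 * T) (fun t => nuf N L t ^ (2 * 6)) :=
    ⟨(LB_nuf hN L).pow _, h1 T (by linarith)⟩
  have bν' : IB T (C2 * T) (fun t => nuf N L t ^ (2 * (4 * q))) :=
    ⟨(LB_nuf hN L).pow _, h2 T (by linarith)⟩
  have bd : IB T (C3 * T * (1 + |(i:ℝ) - a|)) (fun t => Dl N L i a t ^ (2 * 6)) :=
    ⟨(LB_Dl hN L i a).pow _, h3 T (by linarith) i a hi ha⟩
  have be : IB T (C3 * T * (1 + |((i + 1 : ℕ):ℝ) - a|)) (fun t => Dl N L (i + 1) a t ^ (2 * 6)) :=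
    ⟨(LB_Dl hN L (i+1) a).pow _, h3 T (by linarith) (i + 1) a hiB ha⟩
  have bd' : IB T (C4 * T * (1 + |(i:ℝ) - a|)) (fun t => Dl N L i a t ^ (2 * (4 * q))) :=
    ⟨(LB_Dl hN L i a).pow _, h4 T (by linarith) i a hi ha⟩
  have be' : IB T (C4 * T * (1 + |((i + 1 : ℕ):ℝ) - a|))
      (fun t => Dl N L (i + 1) a t ^ (2 * (4 * q))) :=
    ⟨(LB_Dl hN L (i+1) a).pow _, h4 T (by linarith) (i + 1) a hiB ha⟩
  have bD : IB T (C5 * T * (1 + Real.log R) ^ 6) (fun t => D0 N L a t ^ (2 * 6)) :=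
    ⟨(LB_D0 hN L a).pow _, h5 T (by linarith) R a hR haR hRB⟩
  have hall := ((((((((IB.const (T := T) 4).add hT0.le bν).add hT0.le bD).add hT0.le bd).add
    hT0.le be).add hT0.le bν').add hT0.le bd').add hT0.le be').cmul (by norm_num : (0:ℝ) ≤ 8)
  have hfin := IB.mono hT0.le ((LB_Br hN L q a i).pow 2) (g := fun t => 8 * (4 + nuf N L t ^ (2 * 6) +
      D0 N L a t ^ (2 * 6) + Dl N L i a t ^ (2 * 6) + Dl N L (i + 1) a t ^ (2 * 6) +
      nuf N L t ^ (2 * (4 * q)) + Dl N L i a t ^ (2 * (4 * q)) +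
      Dl N L (i + 1) a t ^ (2 * (4 * q)))) (fun t => by
    have := sq8 2 (nuf N L t ^ 6) (D0 N L a t ^ 6) (Dl N L i a t ^ 6) (Dl N L (i + 1) a t ^ 6)
      (nuf N L t ^ (4 * q)) (Dl N L i a t ^ (4 * q)) (Dl N L (i + 1) a t ^ (4 * q))
    unfold Br br
    refine this.trans (le_of_eq ?_)
    have e : ∀ (x : ℝ) (m : ℕ), (x ^ m) ^ 2 = x ^ (2 * m) := fun x m => by
      rw [← pow_mul, mul_comm]
    simp only [e]
    norm_num) hall
  refine ⟨hfin.1, hfin.2.trans ?_⟩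
  have hQ : 1 ≤ (1 + Real.log R) ^ 6 := one_le_pow₀ (by linarith [Real.log_nonneg hR'])
  have hJ0 : 0 ≤ |(i:ℝ) - a| := abs_nonneg _
  have hj' : |((i + 1 : ℕ):ℝ) - a| ≤ |(i:ℝ) - a| + 1 := by
    push_cast
    calc |(i:ℝ) + 1 - a| = |((i:ℝ) - a) + 1| := by ring_nf
      _ ≤ |(i:ℝ) - a| + |1| := abs_add_le _ _
      _ = _ := by rw [abs_one]
  set Q6 := (1 + Real.log R) ^ 6
  set J := 1 + |(i:ℝ) - a| with hJ
  have hJ1 : 1 ≤ J := by linarith
  obtain ⟨W, hW⟩ : ∃ W, W = T * Q6 * J := ⟨_, rfl⟩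
  have hTQ : 0 ≤ T * Q6 := by positivity
  have w2 : T * Q6 ≤ W := by rw [hW]; nlinarith
  have w1 : T ≤ W := by nlinarith
  have w3 : T * J ≤ W := by
    rw [hW, mul_assoc, mul_comm Q6 J, ← mul_assoc]
    have : 0 ≤ T * J := by positivity
    nlinarith
  have w4 : T * (1 + |((i + 1 : ℕ):ℝ) - a|) ≤ 2 * W := by nlinarith
  have m1 := mul_le_mul_of_nonneg_left w1 hC1.le
  have m2 := mul_le_mul_of_nonneg_left w1 hC2.le
  have m3 := mul_le_mul_of_nonneg_left w3 hC3.le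
  have m4 := mul_le_mul_of_nonneg_left w3 hC4.le
  have m5 := mul_le_mul_of_nonneg_left w2 hC5.le
  have m6 := mul_le_mul_of_nonneg_left w4 hC3.le
  have m7 := mul_le_mul_of_nonneg_left w4 hC4.le
  have eW : 8 * (9 + C1 + C5 + C3 + 2 * C3 + C2 + C4 + 2 * C4) * T * Q6 * J =
      8 * (9 + C1 + C5 + C3 + 2 * C3 + C2 + C4 + 2 * C4) * W := by rw [hW]; ring
  rw [eW]
  linarith

theorem domInt (hN : Monotone N) (hM : Mom N) (q : ℕ) (B K : ℝ) (hK : 0 ≤ K) :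
    ∃ C T0 : ℝ, 0 < C ∧ 10 ≤ T0 ∧
    ∀ T : ℝ, T0 ≤ T → ∀ R a M : ℕ, 1 ≤ R → a ≤ R → (R:ℝ) ≤ B * Real.log T →
    (M:ℝ) ≤ B * Real.log T →
    (∫ t in (3 * T / 4)..(3 * T), dom N (Real.log T) K M q a t ^ 2) ≤
      C * T * (1 + Real.log R) ^ 6 := by
  obtain ⟨C, T0, hC, hT0, h⟩ := BrInt hN hM q B
  refine ⟨16 * (K ^ 2 * C) + 1, T0, by positivity, hT0, fun T hT R a M hR haR hRB hMB => ?_⟩
  have hT' : 0 < T := by linarith
  have hR' : (1:ℝ) ≤ R := by exact_mod_cast hR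
  have hQ : 0 ≤ 1 + Real.log R := by linarith [Real.log_nonneg hR']
  have h1 := IB.mono hT'.le ((LB_dom hN (Real.log T) K M q a).pow 2)
    (fun t => dom_sq (N := N) (Real.log T) K hK M q a t)
    (IB.cmul (by norm_num : (0:ℝ) ≤ 4) (IB.sum hT'.le (Finset.range M) fun i hi =>
      IB.cmul (c := K ^ 2 * ((1 + |(i:ℝ) - a|) ^ 4)⁻¹) (by positivity)
        (h T hT R a i hR haR hRB (le_trans (by
          have := Finset.mem_range.1 hi
          exact_mod_cast this) hMB))))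
  refine h1.2.trans ?_
  have h2 : ∑ i ∈ Finset.range M, K ^ 2 * ((1 + |(i:ℝ) - a|) ^ 4)⁻¹ *
      (C * T * (1 + Real.log R) ^ 6 * (1 + |(i:ℝ) - a|)) =
      K ^ 2 * C * T * (1 + Real.log R) ^ 6 *
        ∑ i ∈ Finset.range M, ((1 + |(i:ℝ) - a|) ^ 4)⁻¹ * (1 + |(i:ℝ) - a|) := by
    rw [Finset.mul_sum]
    refine Finset.sum_congr rfl fun i _ => ?_
    ring
  rw [h2]
  have h3 := mul_le_mul_of_nonneg_left (sum_i3 M a)
    (by positivity : 0 ≤ K ^ 2 * C * T * (1 + Real.log R) ^ 6)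
  have h4 : 0 ≤ T * (1 + Real.log R) ^ 6 := by positivity
  linarith

theorem young (u θ : ℝ) (hu : 0 ≤ u) (hθ : 0 < θ) (s : ℕ) (hs : 1 ≤ s) :
    u ≤ θ + (θ ^ (s - 1))⁻¹ * u ^ s := by
  rcases le_total u θ with h | h
  · have : 0 ≤ (θ ^ (s - 1))⁻¹ * u ^ s := by positivity
    linarith
  · have h1 : θ ^ (s - 1) ≤ u ^ (s - 1) := pow_le_pow_left₀ hθ.le h _
    have h2 : u ≤ (θ ^ (s - 1))⁻¹ * u ^ s := by
      rw [le_inv_mul_iff₀ (by positivity)]
      obtain ⟨m, rfl⟩ : ∃ m, s = m + 1 := ⟨s - 1, by omega⟩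
      rw [Nat.add_sub_cancel] at h1 ⊢
      rw [pow_succ]
      exact mul_le_mul_of_nonneg_right h1 hu
    linarith

theorem PA_mono {g : ℕ → ℝ} {T w : ℝ} (hw : 0 < w) {f1 f2 : ℕ → ℝ → ℝ}
    (h : ∀ n ∈ Finset.Ioc (N T) (N (2 * T)), ∀ t, g n - w ≤ t → t < g n → f1 n t ≤ f2 n t)
    (hf1 : ∀ n, LB (f1 n)) (hf2 : ∀ n, LB (f2 n)) : PA N g T w f1 ≤ PA N g T w f2 := by
  unfold PA
  refine Finset.sum_le_sum fun n hn => mul_le_mul_of_nonneg_left ?_ (by positivity)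
  have hab : g n - w ≤ g n := by linarith
  exact intervalIntegral.integral_mono_on_of_le_Ioo hab ((hf1 n).int _ _ hab)
    ((hf2 n).int _ _ hab) fun t ht => h n hn t ht.1.le ht.2

theorem PA_lin {g : ℕ → ℝ} {T w : ℝ} (hw : 0 < w) (f : ℝ → ℝ) (hf : LB f) (θ κ : ℝ) :
    PA N g T w (fun _ t => θ + κ * f t) =
      θ * ((N (2 * T) - N T : ℕ) : ℝ) + κ * PA N g T w (fun _ t => f t) := by
  unfold PA
  have h : ∀ n : ℕ, 1 / w * (∫ t in (g n - w)..(g n), (θ + κ * f t)) =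
      θ + κ * (1 / w * ∫ t in (g n - w)..(g n), f t) := by
    intro n
    have hab : g n - w ≤ g n := by linarith
    rw [intervalIntegral.integral_add ((LB.const θ).int _ _ hab)
      (((LB.const κ).mul hf).int _ _ hab), intervalIntegral.integral_const_mul]
    rw [intervalIntegral.integral_const, smul_eq_mul]
    field_simp
    ring
  rw [Finset.sum_congr rfl fun n _ => h n, Finset.sum_add_distrib, ← Finset.mul_sum]
  simp [mul_comm]

theorem count_le {g : ℕ → ℝ} {C1 : ℝ} (hC1 : 1 ≤ C1) (hc : Cnt N g C1) (T : ℝ) (hT : 10 ≤ T) :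
    ((N (2 * T) - N T : ℕ) : ℝ) ≤ (1 + 2 * C1) * (T * Real.log T) := by
  have hpi := Real.pi_gt_three
  have h1 : ((N (2 * T) - N T : ℕ) : ℝ) ≤ N (2 * T) := by exact_mod_cast Nat.sub_le _ _
  have h2 := (abs_le.1 (hc.rvm (2 * T) (by linarith))).2
  have hL : 1 ≤ Real.log T := by
    rw [Real.le_log_iff_exp_le (by linarith)]
    have := Real.exp_one_lt_d9
    linarith
  have h3 : Real.log (2 * T) ≤ 2 * Real.log T := by
    rw [Real.log_mul (by norm_num) (by linarith)]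
    have : Real.log 2 ≤ Real.log T := Real.log_le_log (by norm_num) (by linarith)
    linarith
  have h4 : Mf (2 * T) ≤ T * Real.log T := by
    unfold Mf
    have h5 : 0 ≤ 2 * T / (2 * Real.pi) := by positivity
    have h6 : 2 * T / (2 * Real.pi) ≤ T := by
      rw [div_le_iff₀ (by positivity)]; nlinarith
    have h7 : Real.log (2 * T / (2 * Real.pi)) ≤ Real.log T :=
      Real.log_le_log (by positivity) h6
    have h8 : 2 * T / (2 * Real.pi) * Real.log (2 * T / (2 * Real.pi)) ≤ T * Real.log T := by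
      calc _ ≤ 2 * T / (2 * Real.pi) * Real.log T := mul_le_mul_of_nonneg_left h7 h5
        _ ≤ T * Real.log T := mul_le_mul_of_nonneg_right h6 (by linarith)
    linarith
  have h9 : (N (2 * T) : ℝ) = Mf (2 * T) + sg N (2 * T) := by unfold sg; ring
  have h10 : C1 * Real.log (2 * T) ≤ 2 * C1 * (T * Real.log T) := by
    have : C1 * Real.log (2 * T) ≤ C1 * (2 * Real.log T) :=
      mul_le_mul_of_nonneg_left h3 (by linarith)
    have h11 : Real.log T ≤ T * Real.log T := by nlinarith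
    nlinarith
  rw [h9] at h1
  linarith

/-- **CRU** -/
theorem t_CRU : J_CRU := by
  intro hPTW hPU N g C1 hC1 hc hM p A ε hA hε
  have hN := hc.mono
  obtain ⟨C, T1, hC, hT1, hptw⟩ := hPTW A C1 hA hC1
  obtain ⟨s, hs⟩ := exists_nat_ge (3 / ε + 1)
  have hs1 : 1 ≤ s := by
    have : (1:ℝ) ≤ s := by have : 0 < 3 / ε := by positivity
                           linarith
    exact_mod_cast this
  obtain ⟨q, hq⟩ : ∃ q, q = s * p := ⟨_, rfl⟩
  obtain ⟨K, hKd⟩ : ∃ K : ℝ, K = (2 * C) ^ 6 * 5 ^ 6 + C ^ (4 * q) * 4 ^ (4 * q) := ⟨_, rfl⟩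
  have hK : 0 ≤ K := by rw [hKd]; positivity
  obtain ⟨C2, T2, hC2, hT2, hdom⟩ := domInt hN hM q (C + 1 + A) K hK
  obtain ⟨C3, T3, hC3, hT3, hpu⟩ := hPU N g C1 hc hM
  refine ⟨(1 + 2 * C1) + C3 * Real.sqrt C2, T1 + T2 + T3, by positivity, by linarith,
    fun T hT R a hR hRA haR => ?_⟩
  have hT0 : 0 < T := by linarith
  have hT10 : 10 ≤ T := by linarith
  have hpi := Real.pi_pos
  have hL1 : 1 ≤ Real.log T := by
    rw [Real.le_log_iff_exp_le (by linarith)]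
    have := Real.exp_one_lt_d9
    linarith
  have hR' : (1:ℝ) ≤ R := by exact_mod_cast hR
  have haR' : (a:ℝ) ≤ R := by exact_mod_cast haR
  set L := Real.log T with hL
  have hw : 0 < 2 * Real.pi / L := by positivity
  obtain ⟨M, hMd⟩ : ∃ M, M = ⌊C * L⌋₊ + 1 := ⟨_, rfl⟩
  have hMB : (M:ℝ) ≤ (C + 1 + A) * L := by
    rw [hMd]; push_cast
    have := Nat.floor_le (by positivity : 0 ≤ C * L)
    nlinarith
  have hRB : (R:ℝ) ≤ (C + 1 + A) * L := by nlinarith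
  obtain ⟨Q, hQd⟩ : ∃ Q : ℝ, Q = 1 + Real.log R := ⟨_, rfl⟩
  have hQ1 : 1 ≤ Q := by rw [hQd]; linarith [Real.log_nonneg hR']
  have hQ0 : 0 < Q := by linarith
  obtain ⟨θ, hθd⟩ : ∃ θ : ℝ, θ = Q ^ ε := ⟨_, rfl⟩
  have hθ : 0 < θ := by rw [hθd]; positivity
  obtain ⟨f, hfd⟩ : ∃ f : ℝ → ℝ, f = dom N L K M q a := ⟨_, rfl⟩
  have hfLB : LB f := by rw [hfd]; exact LB_dom hN L K M q a
  have hf0 : ∀ t, 0 ≤ f t := fun t => by rw [hfd]; exact dom_nonneg L K hK M q a t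
  -- the pointwise bound
  have hpt : ∀ n ∈ Finset.Ioc (N T) (N (2 * T)), ∀ t, g n - 2 * Real.pi / L ≤ t → t < g n →
      (uf g (n + a) - uf g n - a + (sg N (t + 2 * Real.pi * a / L) - sg N t)) ^ (2 * p) ≤
        θ + (θ ^ (s - 1))⁻¹ * f t := by
    intro n hn t ht1 ht2
    obtain ⟨i, hi, hX, hj⟩ := hptw N g hc T (by linarith) a n (haR'.trans hRA) hn t ht1 ht2
    obtain ⟨X, hXd⟩ : ∃ X : ℝ, X = uf g (n + a) - uf g n - a +
      (sg N (t + 2 * Real.pi * a / L) - sg N t) := ⟨_, rfl⟩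
    rw [← hXd] at hX ⊢
    have hν : 0 ≤ nuf N L t := by
      unfold nuf
      have : N t ≤ N (t + 2 * Real.pi / L) := hN (by linarith)
      have : (N t : ℝ) ≤ N (t + 2 * Real.pi / L) := by exact_mod_cast this
      linarith
    have e1 : ((i + 1 : ℕ) : ℝ) = (i:ℝ) + 1 := by push_cast; rfl
    have h1 := ptw C hC q X |(i:ℝ) - a| (nuf N L t) (D0 N L a t) (Dl N L i a t)
      (Dl N L (i + 1) a t) hν (abs_nonneg _) (by
        unfold nuf Dl; rw [e1]; exact hX) (by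
        unfold nuf Dl D0; rw [e1]; exact hj)
    rw [← hKd] at h1
    have h2 : K * ((1 + |(i:ℝ) - a|) ^ 3)⁻¹ * Br N L q a i t ≤ f t := by
      rw [hfd]
      unfold dom
      refine Finset.single_le_sum (f := fun i : ℕ => K * ((1 + |(i:ℝ) - a|) ^ 3)⁻¹ * Br N L q a i t)
        (fun i _ => mul_nonneg (mul_nonneg hK (by positivity)) (Br_nonneg _ _ _ _ _))
        (Finset.mem_range.2 ?_)
      rw [hMd]
      exact Nat.lt_succ_of_le (Nat.le_floor hi)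
    have h3 : X ^ (2 * q) ≤ f t := h1.trans h2
    have h4 := young (X ^ (2 * p)) θ ((even_two_mul p).pow_nonneg X) hθ s hs1
    have h5 : (X ^ (2 * p)) ^ s = X ^ (2 * q) := by
      rw [← pow_mul, hq]; congr 1; ring
    rw [h5] at h4
    exact h4.trans (add_le_add_right (mul_le_mul_of_nonneg_left h3 (by positivity)) _)
  -- the mean
  have hXLB : ∀ n : ℕ, LB (fun t => (uf g (n + a) - uf g n - a +
      (sg N (t + 2 * Real.pi * a / L) - sg N t)) ^ (2 * p)) := fun n =>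
    ((LB.const _).add (LB_D0 hN L a)).pow _
  have hrLB : LB (fun t => θ + (θ ^ (s - 1))⁻¹ * f t) :=
    (LB.const _).add ((LB.const _).mul hfLB)
  have hPA := PA_mono (N := N) (g := g) (T := T) hw (f1 := fun n t => (uf g (n + a) - uf g n - a +
      (sg N (t + 2 * Real.pi * a / L) - sg N t)) ^ (2 * p))
      (f2 := fun _ t => θ + (θ ^ (s - 1))⁻¹ * f t) hpt hXLB (fun _ => hrLB)
  refine hPA.trans ?_
  rw [PA_lin hw f hfLB]
  have hcnt := count_le hC1 hc T hT10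
  have hpu' := hpu T (by linarith) f hf0 hfLB.1.aestronglyMeasurable ((hfLB.pow 2).intOn _ _)
  have hd := hdom T (by linarith) R a M hR haR hRB hMB
  rw [← hfd, ← hQd] at hd
  have hsq : Real.sqrt (∫ t in (3 * T / 4)..(3 * T), f t ^ 2) ≤
      Real.sqrt C2 * Real.sqrt T * Q ^ 3 := by
    have : Real.sqrt C2 * Real.sqrt T * Q ^ 3 = Real.sqrt (C2 * T * Q ^ 6) := by
      rw [Real.sqrt_mul (by positivity), Real.sqrt_mul hC2.le,
        show Q ^ 6 = (Q ^ 3) ^ 2 by ring, Real.sqrt_sq (by positivity)]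
    rw [this]
    exact Real.sqrt_le_sqrt hd
  have hsT : Real.sqrt T * Real.sqrt T = T := Real.mul_self_sqrt hT0.le
  have hpu2 : PA N g T (2 * Real.pi / L) (fun _ t => f t) ≤
      C3 * Real.sqrt C2 * (T * L) * Q ^ 3 := by
    refine hpu'.trans ?_
    calc C3 * L * Real.sqrt T * Real.sqrt (∫ t in (3 * T / 4)..(3 * T), f t ^ 2)
        ≤ C3 * L * Real.sqrt T * (Real.sqrt C2 * Real.sqrt T * Q ^ 3) :=
          mul_le_mul_of_nonneg_left hsq (by positivity)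
      _ = C3 * Real.sqrt C2 * ((Real.sqrt T * Real.sqrt T) * L) * Q ^ 3 := by ring
      _ = _ := by rw [hsT]
  -- the choice of `θ`
  have hkey : (θ ^ (s - 1))⁻¹ * Q ^ 3 ≤ θ := by
    rw [inv_mul_le_iff₀ (by positivity), ← pow_succ, Nat.sub_add_cancel hs1, hθd,
      ← Real.rpow_natCast (Q ^ ε) s, ← Real.rpow_mul hQ0.le]
    have : Q ^ (3:ℕ) = Q ^ (3:ℝ) := by rw [← Real.rpow_natCast]; norm_num
    rw [this]
    apply Real.rpow_le_rpow_of_exponent_le hQ1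
    have h1 : 3 / ε ≤ s := by linarith
    rw [div_le_iff₀ hε] at h1
    linarith
  have h1 : θ * ((N (2 * T) - N T : ℕ) : ℝ) ≤ θ * ((1 + 2 * C1) * (T * L)) :=
    mul_le_mul_of_nonneg_left hcnt hθ.le
  have h2 : (θ ^ (s - 1))⁻¹ * PA N g T (2 * Real.pi / L) (fun _ t => f t) ≤
      C3 * Real.sqrt C2 * (T * L) * θ := by
    calc _ ≤ (θ ^ (s - 1))⁻¹ * (C3 * Real.sqrt C2 * (T * L) * Q ^ 3) :=
          mul_le_mul_of_nonneg_left hpu2 (by positivity)
      _ = C3 * Real.sqrt C2 * (T * L) * ((θ ^ (s - 1))⁻¹ * Q ^ 3) := by ring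
      _ ≤ C3 * Real.sqrt C2 * (T * L) * θ := mul_le_mul_of_nonneg_left hkey (by positivity)
  rw [← hQd, ← hθd]
  calc _ ≤ θ * ((1 + 2 * C1) * (T * L)) + C3 * Real.sqrt C2 * (T * L) * θ := add_le_add h1 h2
    _ = _ := by ring

end Pool.Agent.U600.MV4
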